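import Pool.Agent.L7h79.SP.Lines
import Pool.Agent.L7h79.SP.Sum
import Pool.Agent.L7h5.SP.Stm3

set_option autoImplicit false

/-!
# Project SP, parts LINQ and SYLQ (adapted from `Pool.Agent.L7h79.SP.Lines`)
-/

namespace Pool.Agent.L7h23.SP
open NumberField Module IntermediateField
open Pool.Agent.K4H33.SK (Qbar GQ Fixes IsZeta AbelianRoot isZeta_deriv fixes_iff mem_of_fixed)
open Pool.Agent.K4H33.SK.Stmt (Sub Ideals nrm Cop IsArtin cnt cntAll)
open Pool.Agent.L7h10.RQ (IsAbelian StarkReal0)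
open Pool.Agent.L7h5.SP
open Pool.Agent.L7h79.SP

theorem starkPow_mul {ι : Qbar →+* ℂ} {F H : Sub} [NumberField F] {𝔣 : Ideals F}
    {art : Ideals F → GQ} {n : ℤ} (h : StarkPow ι F H 𝔣 art n) (m : ℤ) :
    StarkPow ι F H 𝔣 art (n * m) := by
  obtain ⟨Z, ε, h1, h2, h3, h4, h5, h6⟩ := h
  have hε : ε ≠ 0 := by
    rintro rfl
    have := (h4 1 (Fixes_one F)).2.2.2
    rw [map_zero, map_zero] at this
    exact Complex.exp_ne_zero _ this.symm
  have g1 : Gd ι F H ε := ⟨h1, hε, h2, h3, h5, h6⟩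
  have g3 := g1.zpow m
  refine ⟨Z, ε ^ m, g3.mem, g3.int, g3.int', fun σ hσ => ?_, g3.norm, g3.root⟩
  obtain ⟨a1, a2, a3, a4⟩ := h4 σ hσ
  refine ⟨a1, a2, a3, ?_⟩
  rw [map_zpow₀, map_zpow₀, a4, ← Complex.exp_int_mul]
  congr 1
  push_cast
  ring

theorem s_LINQ : S_LINQ := by
  have hS : S_SUM := s_SUM
  intro ι F H _ 𝔣 art ℓ q hℓ hq hℓq hab hart hnc hsub
  obtain ⟨a, b, ha, hb, la, lb, hind⟩ := hnc
  have hne : NeZero ℓ := ⟨hℓ.ne_zero⟩
  have h : Ind F H a b ℓ := ⟨hℓ, hab, ha, hb, la, lb, hind⟩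
  have hℓ1 : ¬ (ℓ : ℤ) ∣ 1 := by
    intro h1
    have h2 : ℓ ∣ 1 := by exact_mod_cast h1
    exact hℓ.one_lt.ne' (Nat.dvd_one.1 h2)
  -- the three kinds of subfields
  have hC : ∀ (g : GQ) (hg : Fixes F g), Ord H g ℓ → StarkPart ι F (EC hab g hg) 𝔣 art q := by
    intro g hg ho
    refine hsub _ (F_le hab g 1 hg (Fixes_one F)) (lt_H hab g 1 hg (Fixes_one F) (g := g)
      ⟨1, 0, fun x _ => by simp⟩ ?_)
    intro hgH
    exact hℓ1 (ho.2 1 (by rw [zpow_one]; exact hgH))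
  have hV : StarkPart ι F (EV h) 𝔣 art q := by
    refine hsub _ (F_le hab a b ha hb) (lt_H hab a b ha hb (g := a)
      ⟨1, 0, fun x _ => by simp⟩ ?_)
    intro haH
    exact hℓ1 (hind 1 0 (by rw [zpow_one, zpow_zero, mul_one]; exact haH)).1
  have hle : ∀ (g : GQ) (hg : Fixes F g), EC hab g hg ≤ H := fun g hg =>
    fixedField_le _ (le_WV hab g 1 hg (Fixes_one F))
  have hleV : EV h ≤ H := fixedField_le _ (le_WV hab a b ha hb)
  have hL0 := fun y : ZMod ℓ => hC (a * b ^ ((y.val : ℕ) : ℤ)) (fixes_line h _) (ord_line h _)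
  have hB0 := hC b hb (ord_b h)
  choose nL hLq hL' using hL0
  obtain ⟨nB, hBq, hB'⟩ := hB0
  obtain ⟨nV, hVq, hV'⟩ := hV
  have hqp : Prime (q : ℤ) := Nat.prime_iff_prime_int.1 hq
  obtain ⟨N, hN⟩ : ∃ N : ℤ, N = (∏ y, nL y) * nB * nV := ⟨_, rfl⟩
  have hNq : ¬ (q : ℤ) ∣ N := by
    rw [hN]
    intro hd
    rcases hqp.dvd_or_dvd hd with hd | hd
    · rcases hqp.dvd_or_dvd hd with hd | hd
      · obtain ⟨y, -, hy⟩ := (Prime.dvd_finset_prod_iff hqp _).1 hd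
        exact hLq y hy
      · exact hBq hd
    · exact hVq hd
  have hL : ∀ y : ZMod ℓ, StarkPow ι F (EC hab (a * b ^ ((y.val : ℕ) : ℤ)) (fixes_line h _)) 𝔣 art N := by
    intro y
    obtain ⟨m, hm⟩ : nL y ∣ N := by
      rw [hN, mul_assoc]
      exact (Finset.dvd_prod_of_mem nL (Finset.mem_univ y)).mul_right _
    rw [hm]
    exact starkPow_mul (hL' y) m
  have hB : StarkPow ι F (EC hab b hb) 𝔣 art N := by
    obtain ⟨m, hm⟩ : nB ∣ N := by
      rw [hN]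
      exact (dvd_mul_left _ _).mul_right _
    rw [hm]
    exact starkPow_mul hB' m
  have hV : StarkPow ι F (EV h) 𝔣 art N := by
    obtain ⟨m, hm⟩ : nV ∣ N := by
      rw [hN]
      exact dvd_mul_left _ _
    rw [hm]
    exact starkPow_mul hV' m
  refine ⟨ℓ * N, ?_, ?_⟩
  · intro hd
    rcases hqp.dvd_or_dvd hd with hd | hd
    · have h2 : q ∣ ℓ := by exact_mod_cast hd
      exact hℓq ((Nat.prime_dvd_prime_iff_eq hq hℓ).1 h2).symm
    · exact hNq hd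
  choose ZL eL hL1 hL2 hL3 hL4 hL5 hL6 using hL
  obtain ⟨ZB, eB, hB1, hB2, hB3, hB4, hB5, hB6⟩ := hB
  obtain ⟨ZV, eV, hV1, hV2, hV3, hV4, hV5, hV6⟩ := hV
  have nz : ∀ (z : Qbar) (w : ℂ), ι z = Complex.exp w → z ≠ 0 := by
    rintro z w hz rfl
    rw [map_zero] at hz
    exact Complex.exp_ne_zero _ hz.symm
  have gL : ∀ y, Gd ι F H (eL y) := fun y =>
    ⟨hle _ _ (hL1 y), nz _ _ (hL4 y 1 (Fixes_one F)).2.2.2, hL2 y, hL3 y, hL5 y, hL6 y⟩
  have gB : Gd ι F H eB :=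
    ⟨hle _ _ hB1, nz _ _ (hB4 1 (Fixes_one F)).2.2.2, hB2, hB3, hB5, hB6⟩
  have gV : Gd ι F H eV :=
    ⟨hleV hV1, nz _ _ (hV4 1 (Fixes_one F)).2.2.2, hV2, hV3, hV5, hV6⟩
  have g := ((Gd.prod Finset.univ eL fun y _ => gL y).mul gB).mul gV.inv
  have hℓC : (ℓ : ℂ) ≠ 0 := by exact_mod_cast hℓ.ne_zero
  refine ⟨fun σ s => (∑ y, ZL y σ s + ZB σ s - ZV σ s) / ℓ,
    (∏ y, eL y) * eB * eV⁻¹, g.mem, g.int, g.int', fun σ hσ => ?_, g.norm, g.root⟩
  have kL := fun y => hL4 y σ hσ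
  obtain ⟨kB1, kB2, kB3, kB4⟩ := hB4 σ hσ
  obtain ⟨kV1, kV2, kV3, kV4⟩ := hV4 σ hσ
  have hder : HasDerivAt (fun s => (∑ y, ZL y σ s + ZB σ s - ZV σ s) / ℓ)
      ((∑ y, deriv (ZL y σ) 0 + deriv (ZB σ) 0 - deriv (ZV σ) 0) / ℓ) 0 := by
    refine HasDerivAt.div_const ?_ _
    refine HasDerivAt.sub (HasDerivAt.add ?_ (hasDerivAt_of_isZeta kB1))
      (hasDerivAt_of_isZeta kV1)
    exact HasDerivAt.fun_sum fun y _ => hasDerivAt_of_isZeta (kL y).1
  refine ⟨⟨?_, ?_⟩, ?_, ?_, ?_⟩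
  · refine DifferentiableOn.div_const (DifferentiableOn.sub (DifferentiableOn.add ?_ kB1.1)
      kV1.1) _
    exact DifferentiableOn.fun_sum fun y _ => (kL y).1.1
  · intro s hs
    have h1 : HasSum (fun n => ∑ y : ZMod ℓ, LSeries.term (fun n =>
        ((cnt F (EC hab (a * b ^ ((y.val : ℕ) : ℤ)) (fixes_line h _)) 𝔣 art σ n : ℕ) : ℂ)) s n)
        (∑ y, ZL y σ s) := hasSum_sum fun y _ => (kL y).1.2 s hs
    have h2 := ((h1.add (kB1.2 s hs)).sub (kV1.2 s hs)).div_const (ℓ : ℂ)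
    have h3 : (fun n => (∑ y : ZMod ℓ, LSeries.term (fun n =>
        ((cnt F (EC hab (a * b ^ ((y.val : ℕ) : ℤ)) (fixes_line h _)) 𝔣 art σ n : ℕ) : ℂ)) s n +
        LSeries.term (fun n => ((cnt F (EC hab b hb) 𝔣 art σ n : ℕ) : ℂ)) s n -
        LSeries.term (fun n => ((cnt F (EV h) 𝔣 art σ n : ℕ) : ℂ)) s n) / (ℓ : ℂ)) =
        LSeries.term (fun n => ((cnt F H 𝔣 art σ n : ℕ) : ℂ)) s := by
      funext n
      rcases eq_or_ne n 0 with rfl | hn
      · simp only [LSeries.term_zero, Finset.sum_const_zero, add_zero, sub_zero, zero_div]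
      · simp only [LSeries.term_of_ne_zero hn]
        have h4 : (∑ y : ZMod ℓ, ((cnt F (EC hab (a * b ^ ((y.val : ℕ) : ℤ))
            (fixes_line h _)) 𝔣 art σ n : ℕ) : ℂ)) + ((cnt F (EC hab b hb) 𝔣 art σ n : ℕ) : ℂ) =
            ℓ * ((cnt F H 𝔣 art σ n : ℕ) : ℂ) + ((cnt F (EV h) 𝔣 art σ n : ℕ) : ℂ) := by
          exact_mod_cast congrArg (Nat.cast (R := ℂ)) (coeffs hS h hart.fix hσ n)
        rw [← Finset.sum_div, ← add_div, h4, ← sub_div, add_sub_cancel_right, div_right_comm,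
          mul_div_cancel_left₀ _ hℓC]
    rw [h3] at h2
    exact h2
  · simp only [kB2, kV2]
    rw [Finset.sum_eq_zero fun y _ => (kL y).2.1, add_zero, sub_zero, zero_div]
  · rw [hder.deriv]
    have e1 : ∀ z : ℂ, z.im = 0 → (z / (ℓ : ℂ)).im = 0 := by
      intro z hz
      have : (ℓ : ℂ) = ((ℓ : ℝ) : ℂ) := by push_cast; rfl
      rw [this, Complex.div_ofReal_im, hz, zero_div]
    apply e1
    rw [Complex.sub_im, Complex.add_im, Complex.im_sum, kB3, kV3,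
      Finset.sum_eq_zero fun y _ => (kL y).2.2.1]
    simp
  · rw [hder.deriv]
    simp only [map_mul, map_inv₀, map_prod]
    rw [kB4, kV4, Finset.prod_congr rfl fun y _ => (kL y).2.2.2, ← Complex.exp_sum,
      ← Complex.exp_neg, ← Complex.exp_add, ← Complex.exp_add]
    congr 1
    rw [← Finset.mul_sum]
    push_cast
    field_simp
    ring

theorem s_SYLQ (hL : S_LINQ) : S_SYLQ := by
  intro ι F H _ 𝔣 art q hq hab hart hyp
  obtain ⟨d, hd⟩ : ∃ d, d = finrank ℚ H := ⟨_, rfl⟩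
  induction d using Nat.strong_induction_on generalizing H with
  | _ d ih =>
    by_cases hc : ∀ ℓ : ℕ, ℓ.Prime → NonCyclic F H ℓ → ℓ = q
    · exact hyp H hab.le le_rfl hc
    · push Not at hc
      obtain ⟨ℓ, hℓ, hn, hne⟩ := hc
      have hsub : ∀ H₀ : Sub, F ≤ H₀ → H₀ < H → StarkPart ι F H₀ 𝔣 art q := by
        intro H₀ h1 h2
        have hfin := hab.fin
        have hlt : finrank ℚ H₀ < finrank ℚ H := by
          by_contra hle
          push Not at hle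
          exact h2.ne (IntermediateField.eq_of_le_of_finrank_le h2.le hle)
        exact ih (finrank ℚ H₀) (by rw [hd]; exact hlt) H₀ (IsAbelian.sub hab h1 h2.le)
          (IsArtin.sub hart h2.le) (fun H₁ k1 k2 => hyp H₁ k1 (k2.trans h2.le)) rfl
      exact hL ι F H 𝔣 art ℓ q hℓ hq hne hab hart hn hsub

end Pool.Agent.L7h23.SP
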